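import Mathlib
import Pool.Agent.Helper71.Polyomino
import Pool.Agent.Helper71.Split
import Pool.Agent.Helper71.Growth
import Pool.Agent.Helper71.Comput

/-!
Klarner's constant is the limit of a computable strictly decreasing sequence of rationals.
-/

namespace Pool.Agent.Results.MP_fc5d3b_co.KlarnerComputable

open Pool.Agent.Helper71.Polyomino
open Filter

/-- The decidable condition behind the upper bounds `j / m`. -/
def Ok (m j : ℕ) : Prop :=
  ∀ s < 5 * m + 1, (m ≤ s → D * s ^ 5 * t s * m ^ s ≤ j ^ s)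

lemma pp_ok : PrimrecPred fun z : ℕ × ℕ => Ok z.1 z.2 := by
  unfold Ok
  have h5 : Primrec fun z : ℕ × ℕ => 5 * z.1 + 1 :=
    Primrec.succ.comp (Primrec.nat_mul.comp (Primrec.const 5) Primrec.fst)
  refine pp_forall h5 ?_
  refine pp_imp (Primrec.nat_le.comp (Primrec.fst.comp Primrec.fst) Primrec.snd) ?_
  refine Primrec.nat_le.comp ?_ (prim_pow.comp (Primrec.snd.comp Primrec.fst) Primrec.snd)
  refine Primrec.nat_mul.comp ?_ (prim_pow.comp (Primrec.fst.comp Primrec.fst) Primrec.snd)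
  refine Primrec.nat_mul.comp ?_ (prim_t.comp Primrec.snd)
  exact Primrec.nat_mul.comp (Primrec.const D) (prim_pow.comp Primrec.snd (Primrec.const 5))

lemma exists_ok (m : ℕ) : ∃ j, Ok m j := by
  refine ⟨∑ s ∈ Finset.range (5 * m + 1), D * s ^ 5 * t s * m ^ s, ?_⟩
  intro s hs _
  rcases Nat.eq_zero_or_pos s with rfl | hs0
  · simp
  · have h1 : D * s ^ 5 * t s * m ^ s ≤
        ∑ s ∈ Finset.range (5 * m + 1), D * s ^ 5 * t s * m ^ s :=
      Finset.single_le_sum (f := fun s => D * s ^ 5 * t s * m ^ s)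
        (fun _ _ => Nat.zero_le _) (Finset.mem_range.mpr hs)
    exact h1.trans (Nat.le_self_pow (by omega) _)

/-- The least `j` with `Ok m j`. -/
noncomputable def J (m : ℕ) : ℕ := by
  classical
  exact Nat.find (exists_ok m)

lemma J_ok (m : ℕ) : Ok m (J m) := by
  classical
  exact Nat.find_spec (exists_ok m)

lemma J_min {m j : ℕ} (h : j < J m) : ¬ Ok m j := by
  classical
  exact Nat.find_min (exists_ok m) h

lemma comp_J : Computable J := by
  classical
  have h1 : Primrec₂ (fun m j : ℕ => decide (Ok m j)) := pp_ok.decide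
  let q : ℕ → ℕ →. Bool := fun m j => Part.some (decide (Ok m j))
  have h2 : Partrec₂ q := h1.to_comp.partrec
  refine (Partrec.rfind h2).of_eq_tot ?_
  intro m
  refine Nat.mem_rfind.mpr ⟨?_, ?_⟩
  · simp [q, J_ok m]
  · intro k hk
    simp [q, J_min hk]

/-! ### The bounds `J m / m` -/

lemma J_pos {m : ℕ} (hm : 1 ≤ m) : 0 < J m := by
  by_contra hcon
  have h0 : J m = 0 := by omega
  have h1 := J_ok m m (by omega) (le_refl m)
  rw [h0, zero_pow (by omega)] at h1
  have h2 : 0 < D * m ^ 5 * t m * m ^ m := by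
    have := t_pos hm
    have h3 : 0 < D := by unfold D; norm_num
    positivity
  omega

lemma lower {lam : ℝ} (hlim : Tendsto (fun n : ℕ => (t n : ℝ) ^ (1 / (n : ℝ))) atTop (nhds lam))
    {m : ℕ} (hm : 1 ≤ m) : lam ≤ (J m : ℝ) / m := by
  have hm' : (0 : ℝ) < m := by exact_mod_cast hm
  have hJ : (0 : ℝ) < J m := by exact_mod_cast J_pos hm
  have hμ : (0 : ℝ) < (J m : ℝ) / m := by positivity
  have h1 := t_le_of_window hm hμ (by
    intro s hs1 hs2
    have h2 := J_ok m s (by omega) hs1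
    have h3 : (D : ℝ) * (s : ℝ) ^ 5 * t s * (m : ℝ) ^ s ≤ (J m : ℝ) ^ s := by exact_mod_cast h2
    rw [div_pow, le_div_iff₀ (by positivity)]
    exact h3)
  refine le_of_tendsto hlim ?_
  filter_upwards [eventually_ge_atTop m] with N hN
  have h2 := h1 N hN
  have hN0 : N ≠ 0 := by omega
  have h3 : (t N : ℝ) ^ (1 / (N : ℝ)) ≤ (((J m : ℝ) / m) ^ N) ^ (1 / (N : ℝ)) :=
    Real.rpow_le_rpow (by positivity) h2 (by positivity)
  rw [one_div] at h3 ⊢
  rwa [Real.pow_rpow_inv_natCast hμ.le hN0] at h3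

lemma upper {lam : ℝ} (hpos : 0 < lam)
    (hlim : Tendsto (fun n : ℕ => (t n : ℝ) ^ (1 / (n : ℝ))) atTop (nhds lam))
    {ε : ℝ} (hε : 0 < ε) : ∀ᶠ m : ℕ in atTop, (J m : ℝ) / m ≤ lam + ε + 1 / m := by
  have hD : (0 : ℝ) < D := by unfold D; norm_num
  set r : ℝ := (lam + ε / 2) / (lam + ε) with hr
  have hr0 : 0 ≤ r := by positivity
  have hr1 : r < 1 := by
    rw [hr, div_lt_one (by positivity)]; linarith
  have e1 : ∀ᶠ s : ℕ in atTop, (t s : ℝ) ^ (1 / (s : ℝ)) < lam + ε / 2 :=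
    hlim.eventually_lt_const (by linarith)
  have e2 : ∀ᶠ s : ℕ in atTop, (s : ℝ) ^ 5 * r ^ s < 1 / D :=
    (tendsto_pow_const_mul_const_pow_of_abs_lt_one 5
      (by rwa [abs_of_nonneg hr0])).eventually_lt_const (by positivity)
  obtain ⟨M, hM⟩ := eventually_atTop.mp (e1.and e2)
  filter_upwards [eventually_ge_atTop (max M 1)] with m hm
  have hm1 : 1 ≤ m := le_trans (le_max_right _ _) hm
  have hmM : M ≤ m := le_trans (le_max_left _ _) hm
  have hm' : (0 : ℝ) < m := by exact_mod_cast hm1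
  have hJpos := J_pos hm1
  have hnot := J_min (m := m) (j := J m - 1) (by omega)
  unfold Ok at hnot
  push Not at hnot
  obtain ⟨s, hs1, hs2, hs3⟩ := hnot
  obtain ⟨f1, f2⟩ := hM s (by omega)
  have hs0 : s ≠ 0 := by omega
  -- `t s ≤ (lam + ε/2)^s`
  have g1 : (t s : ℝ) ≤ (lam + ε / 2) ^ s := by
    have h1 : ((t s : ℝ) ^ (1 / (s : ℝ))) ^ s ≤ (lam + ε / 2) ^ s :=
      pow_le_pow_left₀ (by positivity) f1.le s
    rwa [one_div, Real.rpow_inv_natCast_pow (by positivity) hs0] at h1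
  have g2 : (D : ℝ) * (s : ℝ) ^ 5 * t s ≤ (lam + ε) ^ s := by
    have h1 : (lam + ε / 2) ^ s = r ^ s * (lam + ε) ^ s := by
      rw [← mul_pow, hr, div_mul_cancel₀]; positivity
    have h2 : (D : ℝ) * ((s : ℝ) ^ 5 * r ^ s) ≤ 1 := by
      rw [lt_div_iff₀ hD] at f2
      linarith
    calc (D : ℝ) * (s : ℝ) ^ 5 * t s ≤ (D : ℝ) * (s : ℝ) ^ 5 * (lam + ε / 2) ^ s :=
          mul_le_mul_of_nonneg_left g1 (by positivity)
      _ = ((D : ℝ) * ((s : ℝ) ^ 5 * r ^ s)) * (lam + ε) ^ s := by rw [h1]; ring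
      _ ≤ 1 * (lam + ε) ^ s := mul_le_mul_of_nonneg_right h2 (by positivity)
      _ = (lam + ε) ^ s := one_mul _
  have g3 : (((J m - 1 : ℕ) : ℝ)) ^ s < (D : ℝ) * (s : ℝ) ^ 5 * t s * (m : ℝ) ^ s := by
    exact_mod_cast hs3
  have g4 : ((J m - 1 : ℕ) : ℝ) ^ s < ((lam + ε) * m) ^ s := by
    rw [mul_pow]
    refine lt_of_lt_of_le g3 ?_
    exact mul_le_mul_of_nonneg_right g2 (by positivity)
  have g5 : ((J m - 1 : ℕ) : ℝ) < (lam + ε) * m := lt_of_pow_lt_pow_left₀ s (by positivity) g4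
  have g6 : (J m : ℝ) = ((J m - 1 : ℕ) : ℝ) + 1 := by
    have : J m = (J m - 1) + 1 := by omega
    exact_mod_cast this
  rw [g6, add_div]
  have g7 : ((J m - 1 : ℕ) : ℝ) / m ≤ lam + ε := by
    rw [div_le_iff₀ hm']; exact g5.le
  linarith

/-! ### The decreasing sequence -/

/-- One step of the computation of the best fraction found so far. -/
def step (a : (ℕ × (ℕ × ℕ)) × ℕ) : ℕ × ℕ :=
  if a.2 * a.1.2.2 < a.1.2.1 * (a.1.1 + 2) then (a.2, a.1.1 + 2) else a.1.2

lemma prim_step : Primrec step := by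
  unfold step
  refine Primrec.ite ?_ ?_ ?_
  · refine Primrec.nat_lt.comp ?_ ?_
    · exact Primrec.nat_mul.comp Primrec.snd
        (Primrec.snd.comp (Primrec.snd.comp Primrec.fst))
    · exact Primrec.nat_mul.comp (Primrec.fst.comp (Primrec.snd.comp Primrec.fst))
        (Primrec.succ.comp (Primrec.succ.comp (Primrec.fst.comp Primrec.fst)))
  · exact Primrec.pair Primrec.snd
      (Primrec.succ.comp (Primrec.succ.comp (Primrec.fst.comp Primrec.fst)))
  · exact Primrec.snd.comp Primrec.fst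

/-- The best (smallest) fraction among `J 1 / 1, ..., J (n+1) / (n+1)`. -/
noncomputable def best : ℕ → ℕ × ℕ
  | 0 => (J 1, 1)
  | n + 1 => step ((n, best n), J (n + 2))

lemma comp_best : Computable best := by
  have hstep : Computable₂ (fun (_ : ℕ) (z : ℕ × (ℕ × ℕ)) => step (z, J (z.1 + 2))) := by
    have h1 : Computable (fun w : ℕ × (ℕ × (ℕ × ℕ)) => (w.2, J (w.2.1 + 2))) := by
      refine Computable.pair Computable.snd (comp_J.comp ?_)
      exact Computable.succ.comp (Computable.succ.comp (Computable.fst.comp Computable.snd))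
    exact prim_step.to_comp.comp h1
  have h2 := Computable.nat_rec (f := fun n : ℕ => n) (g := fun _ : ℕ => ((J 1, 1) : ℕ × ℕ))
    Computable.id (Computable.const _) hstep
  refine h2.of_eq ?_
  intro n
  induction n with
  | zero => rfl
  | succ n ih =>
    simp only [best] at ih ⊢
    rw [ih]

/-- The value of the best fraction. -/
noncomputable def v (n : ℕ) : ℚ := ((best n).1 : ℚ) / ((best n).2 : ℚ)

lemma best_inv (n : ℕ) : ∃ i, 1 ≤ i ∧ best n = (J i, i) := by
  induction n with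
  | zero => exact ⟨1, le_refl _, rfl⟩
  | succ n ih =>
    rw [best, step]
    split_ifs
    · exact ⟨n + 2, by omega, rfl⟩
    · exact ih

lemma best_pos (n : ℕ) : 0 < (best n).2 := by
  obtain ⟨i, hi, h⟩ := best_inv n
  rw [h]; exact hi

lemma v_succ_le (n : ℕ) : v (n + 1) ≤ v n := by
  have hp := best_pos n
  unfold v
  rw [best, step]
  split_ifs with h
  · simp only at h ⊢
    rw [div_le_div_iff₀ (by positivity) (by exact_mod_cast hp)]
    have h' : J (n + 2) * (best n).2 ≤ (best n).1 * (n + 2) := h.le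
    exact_mod_cast h'
  · exact le_refl _

lemma v_le (n : ℕ) : v n ≤ (J (n + 1) : ℚ) / ((n + 1 : ℕ) : ℚ) := by
  cases n with
  | zero => simp [v, best]
  | succ n =>
    have hp := best_pos n
    unfold v
    rw [best, step]
    split_ifs with h
    · simp only
      exact le_refl _
    · simp only at h
      push Not at h
      rw [div_le_div_iff₀ (by exact_mod_cast hp) (by positivity)]
      exact_mod_cast h

/-- The decreasing sequence. -/
noncomputable def β (n : ℕ) : ℚ := v n + 1 / ((n : ℚ) + 1)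

lemma β_anti : StrictAnti β := by
  apply strictAnti_nat_of_succ_lt
  intro n
  unfold β
  have h1 := v_succ_le n
  have h2 : (1 : ℚ) / (((n + 1 : ℕ) : ℚ) + 1) < 1 / ((n : ℚ) + 1) := by
    apply one_div_lt_one_div_of_lt (by positivity)
    push_cast
    linarith
  linarith

lemma v_ge {lam : ℝ}
    (hlim : Tendsto (fun n : ℕ => (t n : ℝ) ^ (1 / (n : ℝ))) atTop (nhds lam)) (n : ℕ) :
    lam ≤ (v n : ℝ) := by
  obtain ⟨i, hi, h⟩ := best_inv n
  unfold v
  rw [h]
  push_cast
  exact lower hlim hi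

lemma β_tendsto {lam : ℝ} (hpos : 0 < lam)
    (hlim : Tendsto (fun n : ℕ => (t n : ℝ) ^ (1 / (n : ℝ))) atTop (nhds lam)) :
    Tendsto (fun n => (β n : ℝ)) atTop (nhds lam) := by
  rw [Metric.tendsto_atTop]
  intro ε hε
  obtain ⟨M, hM⟩ := eventually_atTop.mp (upper hpos hlim (half_pos hε))
  obtain ⟨K, hK⟩ := exists_nat_gt (4 / ε)
  refine ⟨max M K, ?_⟩
  intro n hn
  have hnM : M ≤ n + 1 := by have := le_max_left M K; omega
  have hnK : K ≤ n := le_trans (le_max_right M K) hn
  have h1 := hM (n + 1) hnM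
  have h2 : (v n : ℝ) ≤ (J (n + 1) : ℝ) / ((n + 1 : ℕ) : ℝ) := by
    have h := (Rat.cast_le (K := ℝ)).mpr (v_le n)
    push_cast at h ⊢
    exact h
  have h3 := v_ge hlim n
  have hn1 : (0 : ℝ) < (n : ℝ) + 1 := by positivity
  have h4 : (1 : ℝ) / ((n : ℝ) + 1) < ε / 4 := by
    rw [div_lt_div_iff₀ hn1 (by norm_num)]
    have h5 : (4 / ε) < (n : ℝ) + 1 := by
      have : (K : ℝ) ≤ n := by exact_mod_cast hnK
      linarith
    rw [div_lt_iff₀ hε] at h5
    linarith
  have h5 : (β n : ℝ) = (v n : ℝ) + 1 / ((n : ℝ) + 1) := by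
    unfold β
    push_cast
    rfl
  have h6 : (0 : ℝ) < 1 / ((n : ℝ) + 1) := by positivity
  rw [Real.dist_eq, h5, abs_of_nonneg (by linarith)]
  push_cast at h1 h2
  linarith

/-- The numerators. -/
noncomputable def num (n : ℕ) : ℕ := (best n).1 * (n + 1) + (best n).2

/-- The denominators. -/
noncomputable def den (n : ℕ) : ℕ := (best n).2 * (n + 1)

lemma comp_num : Computable num := by
  have h1 : Primrec (fun z : (ℕ × ℕ) × ℕ => z.1.1 * (z.2 + 1) + z.1.2) :=
    Primrec.nat_add.comp (Primrec.nat_mul.comp (Primrec.fst.comp Primrec.fst)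
      (Primrec.succ.comp Primrec.snd)) (Primrec.snd.comp Primrec.fst)
  exact h1.to_comp.comp (Computable.pair comp_best Computable.id)

lemma comp_den : Computable den := by
  have h1 : Primrec (fun z : (ℕ × ℕ) × ℕ => z.1.2 * (z.2 + 1)) :=
    Primrec.nat_mul.comp (Primrec.snd.comp Primrec.fst) (Primrec.succ.comp Primrec.snd)
  exact h1.to_comp.comp (Computable.pair comp_best Computable.id)

lemma den_ne (n : ℕ) : den n ≠ 0 := by
  unfold den
  have := best_pos n
  positivity

lemma β_eq (n : ℕ) : β n = (num n : ℚ) / (den n : ℚ) := by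
  have h1 : ((best n).2 : ℚ) ≠ 0 := by
    have := best_pos n
    exact_mod_cast (by omega : (best n).2 ≠ 0)
  have h2 : ((n : ℚ) + 1) ≠ 0 := by positivity
  unfold β v num den
  push_cast
  field_simp

/-- Klarner's constant `lam = lim t(n)^(1/n)` exists, and it is the limit of a strictly
decreasing sequence `β` of rational numbers which is computable: its numerators and
denominators are given by total recursive functions. -/
theorem result : ∃ lam : ℝ,
    Tendsto (fun n : ℕ => (t n : ℝ) ^ (1 / (n : ℝ))) atTop (nhds lam) ∧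
    ∃ (β : ℕ → ℚ) (p q : ℕ → ℕ), Computable p ∧ Computable q ∧
      (∀ n, q n ≠ 0 ∧ β n = (p n : ℚ) / (q n : ℚ)) ∧ StrictAnti β ∧
      Tendsto (fun n => (β n : ℝ)) atTop (nhds lam) := by
  obtain ⟨lam, hpos, hlim⟩ := exists_limit
  exact ⟨lam, hlim, β, num, den, comp_num, comp_den, fun n => ⟨den_ne n, β_eq n⟩, β_anti,
    β_tendsto hpos hlim⟩

end Pool.Agent.Results.MP_fc5d3b_co.KlarnerComputable
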